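import Pool.Agent.J6H91.TZ.Stm2

/-!
# TZ-INT: a semialgebraic set without interior is contained in a hypersurface
-/

set_option autoImplicit false

namespace Pool.Agent.J6H62.TZ

open MvPolynomial Filter Topology Pool.Agent.Helper334_SA

theorem int : Pool.Agent.J6H91.TZ.S_INT := by
  classical
  intro ι _ S hS hint
  obtain ⟨Q, hQ⟩ := hS
  refine ⟨∏ q ∈ Q.filter (fun q => q ≠ 0), q,
    Finset.prod_ne_zero_iff.2 (fun q hq => (Finset.mem_filter.1 hq).2), ?_⟩
  intro x hx
  by_contra hne
  rw [map_prod] at hne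
  have h1 : ∀ q ∈ Q, q ≠ 0 → eval x q ≠ 0 := fun q hq hq0 =>
    Finset.prod_ne_zero_iff.1 hne q (Finset.mem_filter.2 ⟨hq, hq0⟩)
  have h2 : ∀ᶠ y in 𝓝 x, ∀ q ∈ Q,
      SignType.sign (aeval x q) = SignType.sign (aeval y q : ℝ) := by
    rw [Filter.eventually_all_finset]
    intro q hq
    by_cases hq0 : q = 0
    · simp [hq0]
    · have h3 := h1 q hq hq0
      have hcont : Continuous (fun y : ι → ℝ => eval y q) := MvPolynomial.continuous_eval q
      simp only [aeval_eq_eval]
      rcases lt_or_gt_of_ne h3 with h | h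
      · filter_upwards [(hcont.tendsto x).eventually (gt_mem_nhds h)] with y hy
        rw [sign_neg h, sign_neg hy]
      · filter_upwards [(hcont.tendsto x).eventually (lt_mem_nhds h)] with y hy
        rw [sign_pos h, sign_pos hy]
  have h4 : x ∈ interior S := mem_interior_iff_mem_nhds.2 (h2.mono fun y hy => hQ x y hy hx)
  rw [hint] at h4
  exact h4

end Pool.Agent.J6H62.TZ
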